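import Pool.Agent.P.MP_224820_co.St.All

open Filter Topology Pool.Agent.P.MP_224820_co.St

theorem Pool.Agent.Results.MP_224820_co.SharpThreshold.result :
    ∀ ε : ℝ, 0 < ε → ∀ p : ℕ → ℝ, (∀ n, 0 ≤ p n ∧ p n ≤ 1) →
      ((∀ᶠ n : ℕ in atTop, (n % 6 = 1 ∨ n % 6 = 3) → p n ≤ (1 - ε) * (2 * Real.log n / n)) →
        Tendsto (fun n => probSTS n (p n)) (atTop ⊓ 𝓟 {n : ℕ | n % 6 = 1 ∨ n % 6 = 3}) (𝓝 0)) ∧
      ((∀ᶠ n : ℕ in atTop, (n % 6 = 1 ∨ n % 6 = 3) → (1 + ε) * (2 * Real.log n / n) ≤ p n) →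
        Tendsto (fun n => probSTS n (p n)) (atTop ⊓ 𝓟 {n : ℕ | n % 6 = 1 ∨ n % 6 = 3}) (𝓝 1)) := by
  intro ε hε p hp
  have hP : ∀ n, IsP (fun _ : Finset (Fin n) => p n) := fun n _ => hp n
  refine ⟨fun h => ?_, fun h => ?_⟩
  · refine Metric.tendsto_nhds.2 fun δ hδ => eventually_inf_principal.2 ?_
    obtain ⟨n0, h0⟩ := all_ZERO (2 * ε) (δ / 2) (by linarith) (by linarith)
    filter_upwards [h, eventually_ge_atTop n0] with n h1 h2 hn
    have h3 := h0 n h2 (p n) (hp n).1 ((h1 hn).trans_eq (by ring))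
    rw [all_BRIDGE, Real.dist_eq, sub_zero, abs_of_nonneg (Pr_nonneg (hP n) _)]
    linarith
  · refine Metric.tendsto_nhds.2 fun δ hδ => eventually_inf_principal.2 ?_
    obtain ⟨n0, h0⟩ := all_ONE (2 * ε) (δ / 2) (by linarith) (by linarith)
    filter_upwards [h, eventually_ge_atTop n0] with n h1 h2 hn
    have h3 := h0 n h2 hn (p n) (le_of_eq_of_le (by ring) (h1 hn)) (hp n).2
    rw [Pr_not] at h3
    rw [all_BRIDGE, Real.dist_eq, abs_sub_comm, abs_of_nonneg (sub_nonneg.2 (Pr_le_one (hP n) _))]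
    linarith
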